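import Pool.Agent.Run7.h427.DS.Main

/-!
# Representations which satisfy polynomial equations: limits and change of the coefficient field
-/

set_option autoImplicit false

namespace Run7.h427.LG

open NumberField Polynomial Matrix
open Run7.h427.DS

variable {n : ℕ} {E : Type} [Field E] [NumberField E]

/-- the entries of the matrices `ρ g`, the values of the variables `(g, i, j)` -/
def entries {G : Type} [Group G] {K : Type} [Field K] (ρ : G →* GL (Fin n) K) :
    G × Fin n × Fin n → K :=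
  fun x => (ρ x.1 : Matrix (Fin n) (Fin n) K) x.2.1 x.2.2

/-- `ρ` satisfies the equation `P = 0` between the entries of the matrices `ρ g` -/
def Satisfies {G : Type} [Group G] {K : Type} [Field K] (φ : 𝓞 E →+* K) (ρ : G →* GL (Fin n) K)
    (P : MvPolynomial (G × Fin n × Fin n) (𝓞 E)) : Prop :=
  P.eval₂ φ (entries ρ) = 0

/-- the coefficients of the characteristic polynomial -/
noncomputable def cp (E : Type) [Field E] [NumberField E] {G : Type} (n : ℕ) (g : G) (m : ℕ) :
    MvPolynomial (G × Fin n × Fin n) (𝓞 E) :=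
  MvPolynomial.rename (fun ij : Fin n × Fin n => (g, ij.1, ij.2))
    ((Matrix.charpoly.univ (𝓞 E) (Fin n)).coeff m)

theorem charpoly_iff {G : Type} [Group G] {K : Type} [Field K] (φ : 𝓞 E →+* K)
    (ρ : G →* GL (Fin n) K) (g : G) (Q : (𝓞 E)[X]) :
    (ρ g : Matrix (Fin n) (Fin n) K).charpoly = Q.map φ ↔
      ∀ m, Satisfies φ ρ (cp E n g m - MvPolynomial.C (Q.coeff m)) := by
  have h1 : ∀ m, MvPolynomial.eval₂ φ (entries ρ) (cp E n g m) =
      (ρ g : Matrix (Fin n) (Fin n) K).charpoly.coeff m := by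
    intro m
    rw [cp, MvPolynomial.eval₂_rename]
    have h2 := Matrix.charpoly.univ_coeff_eval₂Hom (Fin n) φ
      (fun ij : Fin n × Fin n => (ρ g : Matrix (Fin n) (Fin n) K) ij.1 ij.2) m
    rw [MvPolynomial.coe_eval₂Hom] at h2
    exact h2
  constructor
  · intro h m
    unfold Satisfies
    rw [MvPolynomial.eval₂_sub, h1, MvPolynomial.eval₂_C, h, Polynomial.coeff_map, sub_self]
  · intro h
    ext m
    have h2 := h m
    unfold Satisfies at h2
    rw [MvPolynomial.eval₂_sub, h1, MvPolynomial.eval₂_C, sub_eq_zero] at h2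
    rw [h2, Polynomial.coeff_map]

/-- **Transfer** of a representation with finite image to another algebraically closed field of
characteristic zero, with all polynomial equations. -/
theorem transferP {G : Type} [Group G]
    {K₁ : Type} [Field K₁] [CharZero K₁] (φ₁ : 𝓞 E →+* K₁)
    {K₂ : Type} [Field K₂] [CharZero K₂] [IsAlgClosed K₂] (φ₂ : 𝓞 E →+* K₂)
    (ρ : G →* GL (Fin n) K₁) (hfin : Finite ρ.range) :
    ∃ ρ' : G →* GL (Fin n) K₂, ρ.ker ≤ ρ'.ker ∧
      ∀ P : MvPolynomial (G × Fin n × Fin n) (𝓞 E), Satisfies φ₁ ρ P → Satisfies φ₂ ρ' P := by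
  classical
  let e₁ : E →+* K₁ := IsFractionRing.lift (A := 𝓞 E) (injective_of_charZero φ₁)
  let e₂ : E →+* K₂ := IsFractionRing.lift (A := 𝓞 E) (injective_of_charZero φ₂)
  have he₁ : ∀ x : 𝓞 E, e₁ (algebraMap (𝓞 E) E x) = φ₁ x := fun x => IsFractionRing.lift_algebraMap _ x
  have he₂ : ∀ x : 𝓞 E, e₂ (algebraMap (𝓞 E) E x) = φ₂ x := fun x => IsFractionRing.lift_algebraMap _ x
  let _ : Algebra E K₁ := e₁.toAlgebra
  let _ : Algebra E K₂ := e₂.toAlgebra
  let S : Set K₁ := ⋃ x : ρ.range, ⋃ i : Fin n, ⋃ j : Fin n, {((x : GL (Fin n) K₁) : Matrix (Fin n) (Fin n) K₁) i j}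
  have hS : S.Finite := Set.finite_iUnion fun x => Set.finite_iUnion fun i => Set.finite_iUnion fun j =>
    Set.finite_singleton _
  let B : Subalgebra E K₁ := Algebra.adjoin E S
  have hmem : ∀ (g : G) (i j : Fin n), (ρ g : Matrix (Fin n) (Fin n) K₁) i j ∈ B := by
    intro g i j
    apply Algebra.subset_adjoin
    simp only [S, Set.mem_iUnion, Set.mem_singleton_iff]
    exact ⟨⟨ρ g, g, rfl⟩, i, j, rfl⟩
  have hft : Algebra.FiniteType E B := by
    rw [← Subalgebra.fg_iff_finiteType]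
    exact ⟨hS.toFinset, by rw [hS.coe_toFinset]⟩
  obtain ⟨𝔪, h𝔪⟩ := Ideal.exists_maximal B
  let _ : Field (B ⧸ 𝔪) := Ideal.Quotient.field 𝔪
  have hfin2 : Module.Finite E (B ⧸ 𝔪) := finite_of_finite_type_of_isJacobsonRing E (B ⧸ 𝔪)
  let ψ : B →ₐ[E] K₂ := (IsAlgClosed.lift : (B ⧸ 𝔪) →ₐ[E] K₂).comp (Ideal.Quotient.mkₐ E 𝔪)
  let ν : B →+* K₁ := B.val.toRingHom
  have hν : Function.Injective ν := Subtype.val_injective
  let M₀ : G → Matrix (Fin n) (Fin n) B := fun g => Matrix.of fun i j => ⟨_, hmem g i j⟩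
  have hM₀ : ∀ g, (M₀ g).map ν = (ρ g : Matrix (Fin n) (Fin n) K₁) := fun g => rfl
  have hinj : Function.Injective fun A : Matrix (Fin n) (Fin n) B => A.map ν :=
    Matrix.map_injective hν
  let M : G →* Matrix (Fin n) (Fin n) B :=
    { toFun := M₀
      map_one' := hinj (by
        change (M₀ 1).map ν = (1 : Matrix (Fin n) (Fin n) B).map ν
        rw [hM₀, map_one, Units.val_one, Matrix.map_one ν (map_zero ν) (map_one ν)])
      map_mul' := fun g h => hinj (by
        change (M₀ (g * h)).map ν = (M₀ g * M₀ h).map ν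
        rw [hM₀, Matrix.map_mul, hM₀, hM₀, map_mul, Units.val_mul]) }
  let M' : G →* Matrix (Fin n) (Fin n) K₂ := (ψ.toRingHom.mapMatrix.toMonoidHom).comp M
  have hM' : ∀ g, M' g = (M₀ g).map ψ := fun g => rfl
  refine ⟨M'.toHomUnits, ?_, ?_⟩
  · intro g hg
    rw [MonoidHom.mem_ker] at hg ⊢
    apply Units.ext
    rw [MonoidHom.coe_toHomUnits, Units.val_one]
    have h1 : M g = 1 := hinj (by
      change (M₀ g).map ν = (1 : Matrix (Fin n) (Fin n) B).map ν
      rw [hM₀, hg, Units.val_one, Matrix.map_one ν (map_zero ν) (map_one ν)])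
    change (ψ.toRingHom.mapMatrix.toMonoidHom) (M g) = 1
    rw [h1, map_one]
  · intro P hP
    let θ : 𝓞 E →+* B := (algebraMap E B).comp (algebraMap (𝓞 E) E)
    have hθ₁ : ν.comp θ = φ₁ := RingHom.ext fun x => he₁ x
    have hθ₂ : ψ.toRingHom.comp θ = φ₂ := by
      refine RingHom.ext fun x => ?_
      change ψ (algebraMap E B (algebraMap (𝓞 E) E x)) = φ₂ x
      rw [ψ.commutes]
      exact he₂ x
    let w : G × Fin n × Fin n → B := fun x => M₀ x.1 x.2.1 x.2.2
    have h1 : P.eval₂ θ w = 0 := by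
      apply hν
      rw [MvPolynomial.eval₂_comp_left, hθ₁, map_zero]
      exact hP
    have h2 := congrArg ψ.toRingHom h1
    rw [MvPolynomial.eval₂_comp_left, hθ₂, map_zero] at h2
    exact h2

/-- **Limit** of representations over fields in which every nonzero algebraic integer of `E` becomes
invertible for almost all indices, with the polynomial equations which hold for almost all indices. -/
theorem ultraP {ι : Type} [Infinite ι] (k : ι → Type) [∀ i, Field (k i)]
    (φ : ∀ i, 𝓞 E →+* k i) (hφ : ∀ x : 𝓞 E, x ≠ 0 → {i | φ i x = 0}.Finite)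
    {G : Type} [Group G] (ρ : ∀ i, G →* GL (Fin n) (k i)) :
    ∃ (K : Type) (_ : Field K) (_ : CharZero K) (Φ : 𝓞 E →+* K) (r : G →* GL (Fin n) K),
      ∀ P : MvPolynomial (G × Fin n × Fin n) (𝓞 E), {i | ¬ Satisfies (φ i) (ρ i) P}.Finite →
        Satisfies Φ r P := by
  classical
  let R : Type := ∀ i, k i
  let J : Ideal R :=
    { carrier := {x | {i | x i ≠ 0}.Finite}
      zero_mem' := by
        have : {i : ι | (0 : R) i ≠ 0} = ∅ := by
          ext i
          rw [Set.mem_ofPred_eq, Set.mem_empty_iff_false, iff_false, not_not]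
          rfl
        rw [Set.mem_ofPred_eq, this]
        exact Set.finite_empty
      add_mem' := by
        intro x y hx hy
        refine (hx.union hy).subset fun i hi => ?_
        by_contra hcon
        rw [Set.mem_union, not_or] at hcon
        obtain ⟨h1, h2⟩ := hcon
        rw [Set.mem_ofPred_eq, not_not] at h1 h2
        apply hi
        rw [Pi.add_apply, h1, h2, add_zero]
      smul_mem' := by
        intro c x hx
        refine Set.Finite.subset hx fun i hi => ?_
        intro h0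
        apply hi
        rw [smul_eq_mul, Pi.mul_apply, h0, mul_zero] }
  have hJ : ∀ x : R, x ∈ J ↔ {i | x i ≠ 0}.Finite := fun x => Iff.rfl
  have hJ1 : J ≠ ⊤ := by
    intro h
    have h1 : (1 : R) ∈ J := by rw [h]; exact Submodule.mem_top
    rw [hJ] at h1
    have h2 : {i : ι | (1 : R) i ≠ 0} = Set.univ := by
      ext i
      rw [Set.mem_ofPred_eq]
      exact ⟨fun _ => Set.mem_univ _, fun _ => one_ne_zero (α := k i)⟩
    rw [h2] at h1
    exact Set.infinite_univ h1
  obtain ⟨𝔪, h𝔪, hJm⟩ := Ideal.exists_le_maximal J hJ1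
  let _ : Field (R ⧸ 𝔪) := Ideal.Quotient.field 𝔪
  let Φ₀ : 𝓞 E →+* R := RingHom.pi φ
  let Φ : 𝓞 E →+* (R ⧸ 𝔪) := (Ideal.Quotient.mk 𝔪).comp Φ₀
  have hΦ : ∀ x : 𝓞 E, x ≠ 0 → Φ x ≠ 0 := by
    intro x hx h0
    let y : R := fun i => (φ i x)⁻¹
    have h1 : 1 - Φ₀ x * y ∈ J := by
      rw [hJ]
      refine (hφ x hx).subset fun i hi => ?_
      by_contra hcon
      apply hi
      change 1 - φ i x * (φ i x)⁻¹ = 0
      rw [mul_inv_cancel₀ hcon, sub_self]
    have h2 := Ideal.Quotient.eq_zero_iff_mem.mpr (hJm h1)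
    rw [map_sub, map_one, map_mul] at h2
    change 1 - Φ x * _ = 0 at h2
    rw [h0, zero_mul, sub_zero] at h2
    exact one_ne_zero h2
  have hchar : CharZero (R ⧸ 𝔪) := by
    apply charZero_of_inj_zero
    intro m hm
    by_contra hne
    apply hΦ (m : 𝓞 E) (by exact_mod_cast hne)
    rw [map_natCast, hm]
  let ev : ∀ i, R →+* k i := fun i => Pi.evalRingHom k i
  let M₀ : G → Matrix (Fin n) (Fin n) R := fun g => Matrix.of fun a b i =>
    (ρ i g : Matrix (Fin n) (Fin n) (k i)) a b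
  have hM₀ : ∀ g i, (M₀ g).map (ev i) = (ρ i g : Matrix (Fin n) (Fin n) (k i)) := fun g i => rfl
  have hext : ∀ A B : Matrix (Fin n) (Fin n) R, (∀ i, A.map (ev i) = B.map (ev i)) → A = B := by
    intro A B h
    ext a b i
    exact congrFun (congrFun (h i) a) b
  let M : G →* Matrix (Fin n) (Fin n) R :=
    { toFun := M₀
      map_one' := hext _ _ fun i => by
        rw [hM₀, map_one, Units.val_one, Matrix.map_one (ev i) (map_zero (ev i)) (map_one (ev i))]
      map_mul' := fun g h => hext _ _ fun i => by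
        rw [hM₀, Matrix.map_mul, hM₀, hM₀, map_mul, Units.val_mul] }
  let M' : G →* Matrix (Fin n) (Fin n) (R ⧸ 𝔪) :=
    ((Ideal.Quotient.mk 𝔪).mapMatrix.toMonoidHom).comp M
  refine ⟨R ⧸ 𝔪, inferInstance, hchar, Φ, M'.toHomUnits, fun P hP => ?_⟩
  let w : G × Fin n × Fin n → R := fun x => M₀ x.1 x.2.1 x.2.2
  have h1 : P.eval₂ Φ₀ w ∈ J := by
    rw [hJ]
    refine hP.subset fun i hi => ?_
    rw [Set.mem_ofPred_eq]
    intro h0
    apply hi
    have h3 : ev i (P.eval₂ Φ₀ w) = P.eval₂ (φ i) (entries (ρ i)) := by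
      rw [MvPolynomial.eval₂_comp_left]
      rfl
    change ev i (P.eval₂ Φ₀ w) = 0
    rw [h3]
    exact h0
  have h2 := Ideal.Quotient.eq_zero_iff_mem.mpr (hJm h1)
  rw [MvPolynomial.eval₂_comp_left] at h2
  exact h2

/-- **Lift** of representations of a finite group to an algebraically closed field of characteristic
zero, with the polynomial equations which hold for almost all indices. -/
theorem liftP {ι : Type} [Infinite ι] (k : ι → Type) [∀ i, Field (k i)]
    (φ : ∀ i, 𝓞 E →+* k i) (hφ : ∀ x : 𝓞 E, x ≠ 0 → {i | φ i x = 0}.Finite)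
    {G : Type} [Group G] [Finite G] (ρ : ∀ i, G →* GL (Fin n) (k i))
    {K₂ : Type} [Field K₂] [CharZero K₂] [IsAlgClosed K₂] (φ₂ : 𝓞 E →+* K₂) :
    ∃ r : G →* GL (Fin n) K₂,
      ∀ P : MvPolynomial (G × Fin n × Fin n) (𝓞 E), {i | ¬ Satisfies (φ i) (ρ i) P}.Finite →
        Satisfies φ₂ r P := by
  obtain ⟨K, _, _, Φ, r, hr⟩ := ultraP k φ hφ ρ
  have hfin : Finite r.range := Finite.of_surjective r.rangeRestrict r.rangeRestrict_surjective
  obtain ⟨r', -, hr'⟩ := transferP Φ φ₂ r hfin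
  exact ⟨r', fun P hP => hr' P (hr P hP)⟩

end Run7.h427.LG
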