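import Pool.Agent.Run7.h427.LG.Lift

/-!
# The Deligne–Serre criterion for L-groups
-/

set_option autoImplicit false

namespace Run7.h427.LG

open NumberField IsDedekindDomain Polynomial Matrix
open Pool.Agent.W401.Cheb
open Run7.h427.DS

variable {F E : Type} [Field F] [NumberField F] [Field E] [NumberField E] {n : ℕ}

/-- the matrix `A` satisfies the equations `𝒞` (polynomials in the entries) -/
def InClass (𝒞 : Set (MvPolynomial (Fin n × Fin n) (𝓞 E))) {K : Type} [Field K] (φ : 𝓞 E →+* K)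
    (A : Matrix (Fin n) (Fin n) K) : Prop :=
  ∀ P ∈ 𝒞, P.eval₂ φ (fun ij => A ij.1 ij.2) = 0

/-- there is a prime with Frobenius elements near `x`: the characteristic polynomials of `R x` and
`r x` come from the same polynomial -/
theorem exists_common (Θ : HeckeSystem F E n) {K : Type} [Field K] [CharZero K] (φ : 𝓞 E →+* K)
    (R : GK F →* GL (Fin n) K) (hR : IsOpen (R.ker : Set (GK F)))
    (hm : ∀ v ∉ Θ.S, Θ.Matches φ R v) (r : Θ.ModRep) (x : GK F) :
    ∃ Q : (𝓞 E)[X], (R x : Matrix (Fin n) (Fin n) K).charpoly = Q.map φ ∧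
      (r.ρ x : Matrix (Fin n) (Fin n) r.k).charpoly = Q.map r.φ := by
  have hp : (ringChar r.k).Prime := by
    rcases CharP.char_is_prime_or_zero r.k (ringChar r.k) with h | h
    · exact h
    · exfalso
      have : CharP r.k 0 := h ▸ ringChar.charP r.k
      have : CharZero r.k := CharP.charP_to_charZero r.k
      exact not_finite r.k
  let C : Set (GK F) := {τ | (R τ : Matrix (Fin n) (Fin n) K).charpoly =
    (R x : Matrix (Fin n) (Fin n) K).charpoly ∧ (r.ρ τ : Matrix (Fin n) (Fin n) r.k).charpoly =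
    (r.ρ x : Matrix (Fin n) (Fin n) r.k).charpoly}
  have hcj : ∀ {K : Type} [Field K] (R : GK F →* GL (Fin n) K) (a b : GK F),
      (R (b * a * b⁻¹) : Matrix (Fin n) (Fin n) K).charpoly =
        (R a : Matrix (Fin n) (Fin n) K).charpoly := by
    intro K _ R a b
    have h2 : (R (b * a * b⁻¹) : Matrix (Fin n) (Fin n) K) =
        (R b : Matrix (Fin n) (Fin n) K) * (R a : Matrix (Fin n) (Fin n) K) *
          ((R b)⁻¹ : GL (Fin n) K) := by
      rw [map_mul, map_mul, map_inv, Units.val_mul, Units.val_mul]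
    rw [h2, Matrix.charpoly_mul_comm, ← mul_assoc, ← Units.val_mul, inv_mul_cancel, Units.val_one,
      one_mul]
  have hmu : ∀ {K : Type} [Field K] (R : GK F →* GL (Fin n) K) (a u : GK F), u ∈ R.ker →
      R (a * u) = R a := by
    intro K _ R a u hu
    rw [map_mul, MonoidHom.mem_ker.mp hu, mul_one]
  obtain ⟨v, hv, τ, hτ, hτv⟩ := exists_frob_outside (R.ker ⊓ r.ρ.ker)
    (by rw [Subgroup.coe_inf]; exact hR.inter r.isOpen_ker) C
    (fun a ha b => ⟨by rw [hcj]; exact ha.1, by rw [hcj]; exact ha.2⟩)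
    (fun a ha u hu => ⟨by rw [hmu R a u hu.1]; exact ha.1, by rw [hmu r.ρ a u hu.2]; exact ha.2⟩)
    ⟨x, rfl, rfl⟩ (Θ.S ∪ {v | ((ringChar r.k : ℕ) : 𝓞 F) ∈ v.asIdeal})
    (Θ.finite_S.union (Pool.Agent.W352.ChAbs.over_le (K := F) _ hp).1)
  simp only [Set.mem_union, Set.mem_ofPred_eq, not_or] at hv
  refine ⟨Θ.T v, ?_, ?_⟩
  · rw [← hτ.1]
    exact (hm v hv.1).2 τ hτv
  · rw [← hτ.2]
    exact (r.match_of v hv.1 hv.2).2 τ hτv

/-- a representation in a characteristic larger than `n` factors through the representation in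
characteristic zero -/
theorem ker_le (Θ : HeckeSystem F E n) {K : Type} [Field K] [CharZero K] (φ : 𝓞 E →+* K)
    (R : GK F →* GL (Fin n) K) (hR : IsOpen (R.ker : Set (GK F)))
    (hm : ∀ v ∉ Θ.S, Θ.Matches φ R v) (r : Θ.ModRep) (hr : n < ringChar r.k) :
    R.ker ≤ r.ρ.ker := by
  intro γ hγ
  have hφ : Function.Injective φ := injective_of_charZero φ
  have h0 : (r.ρ γ : Matrix (Fin n) (Fin n) r.k) - 1 = 0 := by
    apply rad_trace r.ρ r.semis
    · intro m hm0 hmn h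
      have h1 := (ringChar.spec r.k m).mp h
      exact absurd (Nat.le_of_dvd hm0 h1) (by omega)
    · exact Submodule.sub_mem _ (mem_Asp _ γ) (one_mem_Asp _)
    · intro g
      rw [sub_mul, one_mul, Matrix.trace_sub, sub_eq_zero, ← Units.val_mul, ← map_mul]
      obtain ⟨Q, hQ, hQ'⟩ := exists_common Θ φ R hR hm r (γ * g)
      obtain ⟨Q₁, hQ₁, hQ₁'⟩ := exists_common Θ φ R hR hm r g
      have h1 : R (γ * g) = R g := by rw [map_mul, MonoidHom.mem_ker.mp hγ, one_mul]
      rw [h1, hQ₁] at hQ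
      have h2 : Q₁ = Q := Polynomial.map_injective φ hφ hQ
      rcases Nat.eq_zero_or_pos n with hn | hn
      · subst hn
        simp [Matrix.trace]
      · have : Nonempty (Fin n) := ⟨⟨0, hn⟩⟩
        rw [Matrix.trace_eq_neg_charpoly_coeff, Matrix.trace_eq_neg_charpoly_coeff, hQ', hQ₁', h2]
  rw [MonoidHom.mem_ker]
  exact Units.ext (sub_eq_zero.mp h0)

/-- **Criterion (modular form).** -/
theorem of_residual (Θ : HeckeSystem F E n) (hn : 0 < n) (hms : Θ.FewTraces)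
    (𝒬 : Set (MvPolynomial (GK F × Fin n × Fin n) (𝓞 E)))
    (𝒞 : HeightOneSpectrum (𝓞 F) → Set (MvPolynomial (Fin n × Fin n) (𝓞 E)))
    (hinf : {𝔩 : HeightOneSpectrum (𝓞 E) | ∃ r : Θ.ModRep, RingHom.ker r.φ = 𝔩.asIdeal ∧
      (∀ P ∈ 𝒬, Satisfies r.φ r.ρ P) ∧ ∀ v ∉ Θ.S, ((ringChar r.k : ℕ) : 𝓞 F) ∉ v.asIdeal →
        ∀ σ : GK F, IsFrob v σ → InClass (𝒞 v) r.φ (r.ρ σ : Matrix (Fin n) (Fin n) r.k)}.Infinite)
    {K : Type} [Field K] [CharZero K] [IsAlgClosed K] (φ : 𝓞 E →+* K) :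
    ∃ R : GK F →* GL (Fin n) K, IsOpen (R.ker : Set (GK F)) ∧ (∀ P ∈ 𝒬, Satisfies φ R P) ∧
      ∀ v ∉ Θ.S, Θ.Matches φ R v ∧
        ∀ σ : GK F, IsFrob v σ → InClass (𝒞 v) φ (R σ : Matrix (Fin n) (Fin n) K) := by
  classical
  obtain ⟨R₀, hR₀, hm₀⟩ := of_modPrimes Θ hn hms (hinf.mono fun 𝔩 h => ⟨h.choose, h.choose_spec.1⟩) φ
  -- the indices
  let ι : Type := {𝔩 : HeightOneSpectrum (𝓞 E) // ∃ r : Θ.ModRep, RingHom.ker r.φ = 𝔩.asIdeal ∧
    (∀ P ∈ 𝒬, Satisfies r.φ r.ρ P) ∧ (∀ v ∉ Θ.S, ((ringChar r.k : ℕ) : 𝓞 F) ∉ v.asIdeal →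
        ∀ σ : GK F, IsFrob v σ → InClass (𝒞 v) r.φ (r.ρ σ : Matrix (Fin n) (Fin n) r.k)) ∧
    n < ringChar r.k}
  have hprime : ∀ r : Θ.ModRep, (ringChar r.k).Prime := by
    intro r
    rcases CharP.char_is_prime_or_zero r.k (ringChar r.k) with h | h
    · exact h
    · exfalso
      have : CharP r.k 0 := h ▸ ringChar.charP r.k
      have : CharZero r.k := CharP.charP_to_charZero r.k
      exact not_finite r.k
  have hι : Infinite ι := by
    refine (Set.infinite_coe_iff (s := {𝔩 : HeightOneSpectrum (𝓞 E) | ∃ r : Θ.ModRep,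
      RingHom.ker r.φ = 𝔩.asIdeal ∧ (∀ P ∈ 𝒬, Satisfies r.φ r.ρ P) ∧
      (∀ v ∉ Θ.S, ((ringChar r.k : ℕ) : 𝓞 F) ∉ v.asIdeal → ∀ σ : GK F, IsFrob v σ →
        InClass (𝒞 v) r.φ (r.ρ σ : Matrix (Fin n) (Fin n) r.k)) ∧ n < ringChar r.k})).mpr ?_
    have h1 := finite_mem (E := E) (x := ((n.factorial : ℕ) : 𝓞 E))
      (by exact_mod_cast n.factorial_ne_zero)
    refine (hinf.sdiff h1).mono ?_
    rintro 𝔩 ⟨⟨r, hr, hr2, hr3⟩, h2⟩
    refine ⟨r, hr, hr2, hr3, ?_⟩
    by_contra hcon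
    push Not at hcon
    apply h2
    rw [Set.mem_ofPred_eq, ← hr, RingHom.mem_ker, map_natCast]
    exact (ringChar.spec r.k _).mpr (Nat.dvd_factorial (hprime r).pos hcon)
  have hch : ∀ i : ι, ∃ r : Θ.ModRep, RingHom.ker r.φ = i.1.asIdeal ∧
    (∀ P ∈ 𝒬, Satisfies r.φ r.ρ P) ∧ (∀ v ∉ Θ.S, ((ringChar r.k : ℕ) : 𝓞 F) ∉ v.asIdeal →
        ∀ σ : GK F, IsFrob v σ → InClass (𝒞 v) r.φ (r.ρ σ : Matrix (Fin n) (Fin n) r.k)) ∧
    n < ringChar r.k := fun i => i.2
  choose r hr1 hr2 hr3 hr4 using hch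
  have hφfin : ∀ x : 𝓞 E, x ≠ 0 → {i | (r i).φ x = 0}.Finite := by
    intro x hx
    refine Set.Finite.of_finite_image (f := Subtype.val) ((finite_mem hx).subset ?_)
      Subtype.val_injective.injOn
    rintro _ ⟨i, hi, rfl⟩
    rw [Set.mem_ofPred_eq, ← hr1 i, RingHom.mem_ker]
    exact hi
  have hcharfin : ∀ v : HeightOneSpectrum (𝓞 F),
      {i | ((ringChar (r i).k : ℕ) : 𝓞 F) ∈ v.asIdeal}.Finite := by
    intro v
    rcases Set.eq_empty_or_nonempty {i | ((ringChar (r i).k : ℕ) : 𝓞 F) ∈ v.asIdeal} with he | ⟨j, hj⟩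
    · rw [he]; exact Set.finite_empty
    refine (hφfin ((ringChar (r j).k : ℕ) : 𝓞 E)
      (by exact_mod_cast (hprime (r j)).ne_zero)).subset ?_
    intro i hi
    have h1 : ringChar (r i).k = ringChar (r j).k := by
      by_contra hne
      have hcop : IsCoprime (ringChar (r i).k : ℤ) (ringChar (r j).k : ℤ) :=
        Nat.isCoprime_iff_coprime.mpr ((Nat.coprime_primes (hprime (r i)) (hprime (r j))).mpr hne)
      obtain ⟨a, b, hab⟩ := hcop
      apply v.isPrime.ne_top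
      rw [Ideal.eq_top_iff_one]
      have h3 : (1 : 𝓞 F) = (a : 𝓞 F) * ((ringChar (r i).k : ℕ) : 𝓞 F) +
          (b : 𝓞 F) * ((ringChar (r j).k : ℕ) : 𝓞 F) := by
        exact_mod_cast (congrArg (Int.cast : ℤ → 𝓞 F) hab).symm
      rw [h3]
      exact v.asIdeal.add_mem (v.asIdeal.mul_mem_left _ hi) (v.asIdeal.mul_mem_left _ hj)
    change (r i).φ ((ringChar (r j).k : ℕ) : 𝓞 E) = 0
    rw [map_natCast, ← h1, ringChar.Nat.cast_ringChar]
  -- the finite quotient
  let U : Subgroup (GK F) := R₀.ker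
  have hUn : U.Normal := inferInstanceAs R₀.ker.Normal
  have hfinG : Finite (GK F ⧸ U) := Subgroup.quotient_finite_of_isOpen U hR₀
  have hker : ∀ i, U ≤ (r i).ρ.ker := fun i => ker_le Θ φ R₀ hR₀ hm₀ (r i) (hr4 i)
  let s : ∀ i, (GK F ⧸ U) →* GL (Fin n) (r i).k := fun i => QuotientGroup.lift U (r i).ρ (hker i)
  have hs : ∀ i x, s i (QuotientGroup.mk x) = (r i).ρ x := fun i x => QuotientGroup.lift_mk' U (hker i) x
  obtain ⟨q, hq⟩ := liftP (fun i => (r i).k) (fun i => (r i).φ) hφfin s φ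
  have hopen : IsOpen ((q.comp (QuotientGroup.mk' U)).ker : Set (GK F)) := by
    refine Subgroup.isOpen_mono (H₁ := U) ?_ hR₀
    intro x hx
    rw [MonoidHom.mem_ker, MonoidHom.comp_apply, QuotientGroup.mk'_apply,
      (QuotientGroup.eq_one_iff x).mpr hx, map_one]
  refine ⟨q.comp (QuotientGroup.mk' U), hopen, ?_, ?_⟩
  · intro P hP
    have h1 := hq (MvPolynomial.rename (fun x => (QuotientGroup.mk x.1, x.2)) P) (by
      refine Set.finite_empty.subset fun i hi => ?_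
      apply hi
      unfold Satisfies
      rw [MvPolynomial.eval₂_rename]
      have h2 : entries (s i) ∘ (fun x : GK F × Fin n × Fin n =>
          ((QuotientGroup.mk x.1 : GK F ⧸ U), x.2)) = entries (r i).ρ := by
        funext x
        change (s i (QuotientGroup.mk x.1) : Matrix (Fin n) (Fin n) (r i).k) x.2.1 x.2.2 = _
        rw [hs]
        rfl
      rw [h2]
      exact hr2 i P hP)
    unfold Satisfies at h1 ⊢
    rw [MvPolynomial.eval₂_rename] at h1
    exact h1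
  · intro v hv
    refine ⟨⟨fun τ hτ => ?_, fun σ hσ => ?_⟩, fun σ hσ P hP => ?_⟩
    · have h1 : τ ∈ U := (hm₀ v hv).1 τ hτ
      rw [MonoidHom.comp_apply, QuotientGroup.mk'_apply, (QuotientGroup.eq_one_iff τ).mpr h1, map_one]
    · rw [MonoidHom.comp_apply, charpoly_iff]
      intro m
      apply hq
      refine (hcharfin v).subset fun i hi => ?_
      by_contra hcon
      have h1 : ((s i (QuotientGroup.mk σ) : GL (Fin n) (r i).k) :
          Matrix (Fin n) (Fin n) (r i).k).charpoly = (Θ.T v).map (r i).φ := by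
        rw [hs]
        exact ((r i).match_of v hv hcon).2 σ hσ
      exact hi ((charpoly_iff _ _ _ _).mp h1 m)
    · have h1 := hq (MvPolynomial.rename (fun x => (QuotientGroup.mk σ, x.1, x.2)) P) (by
        refine (hcharfin v).subset fun i hi => ?_
        by_contra hcon
        apply hi
        unfold Satisfies
        rw [MvPolynomial.eval₂_rename]
        have h2 : entries (s i) ∘ (fun x : Fin n × Fin n =>
            ((QuotientGroup.mk σ : GK F ⧸ U), x.1, x.2)) =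
            fun ij => ((r i).ρ σ : Matrix (Fin n) (Fin n) (r i).k) ij.1 ij.2 := by
          funext x
          change (s i (QuotientGroup.mk σ) : Matrix (Fin n) (Fin n) (r i).k) x.1 x.2 = _
          rw [hs]
        rw [h2]
        exact hr3 i v hv hcon σ hσ P hP)
      unfold Satisfies at h1
      rw [MvPolynomial.eval₂_rename] at h1
      exact h1

end Run7.h427.LG
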