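import Pool.Agent.Run7.h427.LG.Main

/-!
# Reduction of representations of finite groups modulo almost all primes
-/

set_option autoImplicit false

namespace Run7.h427.LG

open NumberField IsDedekindDomain Polynomial Matrix
open Pool.Agent.W401.Cheb
open Run7.h427.DS

variable {F E : Type} [Field F] [NumberField F] [Field E] [NumberField E] {n : ℕ}

/-- semisimplicity of representations of finite groups of order prime to the characteristic -/
theorem semis_of_finite {Γ : Type} [Group Γ] [Finite Γ] {k : Type} [Field k]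
    (hk : (Nat.card Γ : k) ≠ 0) (ρ : Γ →* GL (Fin n) k) : Semis ρ := by
  classical
  have := Fintype.ofFinite Γ
  intro W hW
  obtain ⟨g₀, hg₀⟩ := LinearMap.exists_leftInverse_of_injective W.subtype
    (LinearMap.ker_eq_bot.mpr W.subtype_injective)
  let p : (Fin n → k) →ₗ[k] (Fin n → k) := W.subtype ∘ₗ g₀
  have hp1 : ∀ w ∈ W, p w = w := by
    intro w hw
    have := congrArg (fun f => (f ⟨w, hw⟩ : W).1) hg₀
    exact this
  have hp2 : ∀ v, p v ∈ W := fun v => (g₀ v).2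
  let L : Γ → (Fin n → k) →ₗ[k] (Fin n → k) := fun g =>
    Matrix.toLin' (ρ g : Matrix (Fin n) (Fin n) k)
  have hL : ∀ g v, L g v = (ρ g : Matrix (Fin n) (Fin n) k) *ᵥ v := fun g v =>
    Matrix.toLin'_apply _ _
  have hLm : ∀ g h v, L (g * h) v = L g (L h v) := by
    intro g h v
    rw [hL, hL, hL, map_mul, Units.val_mul, Matrix.mulVec_mulVec]
  have hL1 : ∀ v, L 1 v = v := by
    intro v
    rw [hL, map_one, Units.val_one, Matrix.one_mulVec]
  let q : (Fin n → k) →ₗ[k] (Fin n → k) := ∑ g : Γ, (L g⁻¹) ∘ₗ p ∘ₗ (L g)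
  have hq : ∀ v, q v = ∑ g : Γ, L g⁻¹ (p (L g v)) := by
    intro v
    rw [LinearMap.sum_apply]
    rfl
  have hcard : (Fintype.card Γ : k) = (Nat.card Γ : k) := by rw [Nat.card_eq_fintype_card]
  have hq1 : ∀ w ∈ W, q w = (Nat.card Γ : k) • w := by
    intro w hw
    rw [hq]
    have h1 : ∀ g : Γ, L g⁻¹ (p (L g w)) = w := by
      intro g
      rw [hp1 _ (by rw [hL]; exact hW g w hw), ← hLm, inv_mul_cancel, hL1]
    rw [Finset.sum_congr rfl fun g _ => h1 g, Finset.sum_const, Finset.card_univ, ← hcard,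
      Nat.cast_smul_eq_nsmul]
  have hq2 : ∀ v, q v ∈ W := by
    intro v
    rw [hq]
    exact Submodule.sum_mem _ fun g _ => by rw [hL]; exact hW _ _ (hp2 _)
  have hq3 : ∀ h v, q (L h v) = L h (q v) := by
    intro h v
    rw [hq, hq, map_sum]
    refine Fintype.sum_equiv (Equiv.mulRight h) _ _ fun g => ?_
    rw [Equiv.coe_mulRight, ← hLm, ← hLm]
    congr 2
    rw [_root_.mul_inv_rev, mul_inv_cancel_left]
  refine ⟨LinearMap.ker q, fun g w hw => ?_, ?_⟩
  · rw [LinearMap.mem_ker] at hw ⊢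
    rw [← hL, hq3, hw, map_zero]
  · rw [isCompl_iff, disjoint_iff, codisjoint_iff]
    constructor
    · rw [eq_bot_iff]
      rintro w ⟨hw1, hw2⟩
      have h1 := hq1 w hw1
      rw [LinearMap.mem_ker.mp hw2] at h1
      rcases smul_eq_zero.mp h1.symm with h | h
      · exact absurd h hk
      · exact h
    · rw [eq_top_iff]
      intro v _
      rw [Submodule.mem_sup]
      refine ⟨(Nat.card Γ : k)⁻¹ • q v, Submodule.smul_mem _ _ (hq2 v), v - (Nat.card Γ : k)⁻¹ • q v,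
        ?_, by abel⟩
      rw [LinearMap.mem_ker, map_sub, map_smul, hq1 _ (hq2 v), smul_smul, inv_mul_cancel₀ hk, one_smul,
        sub_self]

/-- **Reduction modulo almost all primes.** -/
theorem reduce {Γ : Type} [Group Γ] [Finite Γ] {K : Type} [Field K] [CharZero K] (φ : 𝓞 E →+* K)
    (R : Γ →* GL (Fin n) K) :
    ∃ B : Set (HeightOneSpectrum (𝓞 E)), B.Finite ∧ ∀ 𝔩 ∉ B,
      ∃ (k : Type) (_ : Field k) (_ : Finite k) (ψ : 𝓞 E →+* k) (r : Γ →* GL (Fin n) k),
        RingHom.ker ψ = 𝔩.asIdeal ∧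
        ∀ P : MvPolynomial (Γ × Fin n × Fin n) (𝓞 E), Satisfies φ R P → Satisfies ψ r P := by
  classical
  have hRf : Finite R.range := Finite.of_surjective R.rangeRestrict R.rangeRestrict_surjective
  obtain ⟨R₂, -, hR₂⟩ := transferP (E := E) φ ((algebraMap E (AlgebraicClosure E)).comp
    (algebraMap (𝓞 E) E)) R hRf
  let S : Set (AlgebraicClosure E) := Set.range (entries R₂)
  have hS : S.Finite := Set.finite_range _
  let L : IntermediateField E (AlgebraicClosure E) := IntermediateField.adjoin E S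
  have hLf : FiniteDimensional E L := by
    have := hS.to_subtype
    exact IntermediateField.finiteDimensional_adjoin fun x _ => Algebra.IsIntegral.isIntegral x
  have hLQ : FiniteDimensional ℚ L := Module.Finite.trans E L
  have hLN : NumberField L := { to_charZero := inferInstance, to_finiteDimensional := hLQ }
  -- the entries in `L`
  have hent : ∀ x, entries R₂ x ∈ L := fun x => IntermediateField.subset_adjoin _ _ ⟨x, rfl⟩
  obtain ⟨m, hm⟩ := IsLocalization.exist_integer_multiples_of_finite (nonZeroDivisors (𝓞 L))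
    (fun x : Γ × Fin n × Fin n => (⟨entries R₂ x, hent x⟩ : L))
  have hm0 : (m : 𝓞 L) ≠ 0 := nonZeroDivisors.coe_ne_zero m
  -- primes above
  have hinj : Function.Injective (algebraMap (𝓞 E) (𝓞 L)) := FaithfulSMul.algebraMap_injective _ _
  have hover : ∀ 𝔩 : HeightOneSpectrum (𝓞 E), ∃ 𝔏 : HeightOneSpectrum (𝓞 L),
      𝔏.asIdeal.comap (algebraMap (𝓞 E) (𝓞 L)) = 𝔩.asIdeal := by
    intro 𝔩
    have hmax : 𝔩.asIdeal.IsMaximal := 𝔩.isMaximal
    obtain ⟨Q, hQ, hQP⟩ := Ideal.exists_ideal_over_maximal_of_isIntegral (S := 𝓞 L) 𝔩.asIdeal (by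
      rw [(RingHom.injective_iff_ker_eq_bot _).mp hinj]; exact bot_le)
    refine ⟨⟨Q, hQ.isPrime, ?_⟩, hQP⟩
    rintro rfl
    apply 𝔩.ne_bot
    rw [← hQP, eq_bot_iff]
    intro y hy
    rw [Ideal.mem_comap, Ideal.mem_bot] at hy
    rw [Ideal.mem_bot]
    exact hinj (by rw [hy, map_zero])
  choose 𝔏 h𝔏 using hover
  have h𝔏inj : Function.Injective 𝔏 := by
    intro a b hab
    apply HeightOneSpectrum.ext
    rw [← h𝔏, ← h𝔏, hab]
  refine ⟨{𝔩 | (m : 𝓞 L) ∈ (𝔏 𝔩).asIdeal}, ?_, ?_⟩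
  · refine Set.Finite.of_finite_image (f := 𝔏) ((finite_mem hm0).subset ?_) h𝔏inj.injOn
    rintro _ ⟨𝔩, h, rfl⟩
    exact h
  intro 𝔩 h𝔩
  rw [Set.mem_ofPred_eq] at h𝔩
  let 𝔮 := (𝔏 𝔩).asIdeal
  have hmax : 𝔮.IsMaximal := (𝔏 𝔩).isMaximal
  let _ : Field (𝓞 L ⧸ 𝔮) := Ideal.Quotient.field 𝔮
  have hkfin : Finite (𝓞 L ⧸ 𝔮) := Ideal.finiteQuotientOfFreeOfNeBot 𝔮 (𝔏 𝔩).ne_bot
  let M : Submonoid (𝓞 L) := 𝔮.primeCompl
  have hM : M ≤ nonZeroDivisors (𝓞 L) := 𝔮.primeCompl_le_nonZeroDivisors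
  let B := Localization.subalgebra.ofField L M hM
  let g : B →+* (𝓞 L ⧸ 𝔮) := IsLocalization.lift (M := M) (g := Ideal.Quotient.mk 𝔮) (by
    rintro ⟨y, hy⟩
    rw [isUnit_iff_ne_zero]
    intro h0
    exact hy (Ideal.Quotient.eq_zero_iff_mem.mp h0))
  have hg : ∀ a : 𝓞 L, g (algebraMap (𝓞 L) B a) = Ideal.Quotient.mk 𝔮 a := fun a =>
    IsLocalization.lift_eq _ _
  have hmemB : ∀ x, (⟨entries R₂ x, hent x⟩ : L) ∈ B := by
    intro x
    obtain ⟨a, ha⟩ := hm x
    refine ⟨a, m, h𝔩, ?_⟩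
    have h1 : (algebraMap (𝓞 L) L (m : 𝓞 L)) ≠ 0 := by
      rw [Ne, FaithfulSMul.algebraMap_eq_zero_iff]
      exact hm0
    rw [eq_mul_inv_iff_mul_eq₀ h1, ha, mul_comm]
    rw [Algebra.smul_def]
  -- the representation over `B`
  let M₀ : Γ → Matrix (Fin n) (Fin n) B := fun γ => Matrix.of fun i j => ⟨_, hmemB (γ, i, j)⟩
  let ν : B →+* AlgebraicClosure E := (algebraMap L (AlgebraicClosure E)).comp B.val.toRingHom
  have hν : Function.Injective ν :=
    (algebraMap L (AlgebraicClosure E)).injective.comp Subtype.val_injective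
  have hM₀ : ∀ γ, (M₀ γ).map ν = (R₂ γ : Matrix (Fin n) (Fin n) (AlgebraicClosure E)) := fun γ => rfl
  have hinjM : Function.Injective fun A : Matrix (Fin n) (Fin n) B => A.map ν :=
    Matrix.map_injective hν
  let M₁ : Γ →* Matrix (Fin n) (Fin n) B :=
    { toFun := M₀
      map_one' := hinjM (by
        change (M₀ 1).map ν = (1 : Matrix (Fin n) (Fin n) B).map ν
        rw [hM₀, map_one, Units.val_one, Matrix.map_one ν (map_zero ν) (map_one ν)])
      map_mul' := fun g h => hinjM (by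
        change (M₀ (g * h)).map ν = (M₀ g * M₀ h).map ν
        rw [hM₀, Matrix.map_mul, hM₀, hM₀, map_mul, Units.val_mul]) }
  let M₂ : Γ →* Matrix (Fin n) (Fin n) (𝓞 L ⧸ 𝔮) := (g.mapMatrix.toMonoidHom).comp M₁
  refine ⟨𝓞 L ⧸ 𝔮, inferInstance, hkfin, (Ideal.Quotient.mk 𝔮).comp (algebraMap (𝓞 E) (𝓞 L)),
    M₂.toHomUnits, ?_, ?_⟩
  · rw [← RingHom.comap_ker, Ideal.mk_ker]
    exact h𝔏 𝔩
  · intro P hP
    have hP₂ := hR₂ P hP
    let θ : 𝓞 E →+* B := (algebraMap (𝓞 L) B).comp (algebraMap (𝓞 E) (𝓞 L))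
    have hθ₁ : ν.comp θ = (algebraMap E (AlgebraicClosure E)).comp (algebraMap (𝓞 E) E) := rfl
    have hθ₂ : g.comp θ = (Ideal.Quotient.mk 𝔮).comp (algebraMap (𝓞 E) (𝓞 L)) :=
      RingHom.ext fun x => hg _
    let w : Γ × Fin n × Fin n → B := fun x => M₀ x.1 x.2.1 x.2.2
    have h1 : P.eval₂ θ w = 0 := by
      apply hν
      rw [MvPolynomial.eval₂_comp_left, hθ₁, map_zero]
      exact hP₂
    have h2 := congrArg g h1
    rw [MvPolynomial.eval₂_comp_left, hθ₂, map_zero] at h2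
    exact h2

/-- **Residual representations for almost all primes** from one representation in characteristic
zero. -/
theorem to_residual (Θ : HeckeSystem F E n)
    (𝒬 : Set (MvPolynomial (GK F × Fin n × Fin n) (𝓞 E)))
    (𝒞 : HeightOneSpectrum (𝓞 F) → Set (MvPolynomial (Fin n × Fin n) (𝓞 E)))
    {K : Type} [Field K] [CharZero K] (φ : 𝓞 E →+* K) (R : GK F →* GL (Fin n) K)
    (hR : IsOpen (R.ker : Set (GK F))) (hsat : ∀ P ∈ 𝒬, Satisfies φ R P)
    (hm : ∀ v ∉ Θ.S, Θ.Matches φ R v ∧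
      ∀ σ : GK F, IsFrob v σ → InClass (𝒞 v) φ (R σ : Matrix (Fin n) (Fin n) K)) :
    {𝔩 : HeightOneSpectrum (𝓞 E) | ¬ ∃ r : Θ.ModRep, RingHom.ker r.φ = 𝔩.asIdeal ∧
      (∀ P ∈ 𝒬, Satisfies r.φ r.ρ P) ∧ ∀ v ∉ Θ.S, ((ringChar r.k : ℕ) : 𝓞 F) ∉ v.asIdeal →
        ∀ σ : GK F, IsFrob v σ →
          InClass (𝒞 v) r.φ (r.ρ σ : Matrix (Fin n) (Fin n) r.k)}.Finite := by
  classical
  let U : Subgroup (GK F) := R.ker
  have hUn : U.Normal := inferInstanceAs R.ker.Normal
  have hfinG : Finite (GK F ⧸ U) := Subgroup.quotient_finite_of_isOpen U hR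
  let s : (GK F ⧸ U) →* GL (Fin n) K := QuotientGroup.lift U R le_rfl
  have hs : ∀ x, s (QuotientGroup.mk x) = R x := fun x => QuotientGroup.lift_mk' U le_rfl x
  obtain ⟨B, hB, hB'⟩ := reduce φ s
  have hN : ((Nat.card (GK F ⧸ U) : ℕ) : 𝓞 E) ≠ 0 := by exact_mod_cast Nat.card_pos.ne'
  refine (hB.union (finite_mem hN)).subset ?_
  intro 𝔩 h𝔩
  by_contra hcon
  rw [Set.mem_union, not_or] at hcon
  obtain ⟨hcon1, hcon2⟩ := hcon
  apply h𝔩
  obtain ⟨k, _, _, ψ, r, hψ, hr⟩ := hB' 𝔩 hcon1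
  have hsem : Semis r := by
    apply semis_of_finite
    intro h0
    apply hcon2
    rw [Set.mem_ofPred_eq, ← hψ, RingHom.mem_ker, map_natCast]
    exact h0
  have hker : U ≤ (r.comp (QuotientGroup.mk' U)).ker := by
    intro x hx
    rw [MonoidHom.mem_ker, MonoidHom.comp_apply, QuotientGroup.mk'_apply,
      (QuotientGroup.eq_one_iff x).mpr hx, map_one]
  refine ⟨{ k := k, φ := ψ, ρ := r.comp (QuotientGroup.mk' U), isOpen_ker := Subgroup.isOpen_mono hker hR,
            semis := ?_, match_of := ?_ }, hψ, ?_, ?_⟩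
  · intro W hW
    obtain ⟨W', h1, h2⟩ := hsem W (by
      intro g w hw
      obtain ⟨x, rfl⟩ := QuotientGroup.mk_surjective g
      exact hW x w hw)
    exact ⟨W', fun g w hw => h1 _ w hw, h2⟩
  · intro v hv _
    refine ⟨fun τ hτ => hker ((hm v hv).1.1 τ hτ), fun σ hσ => ?_⟩
    rw [MonoidHom.comp_apply, QuotientGroup.mk'_apply, charpoly_iff]
    intro m
    apply hr
    revert m
    rw [← charpoly_iff, hs]
    exact (hm v hv).1.2 σ hσ
  · intro P hP
    have h1 := hr (MvPolynomial.rename (fun x => (QuotientGroup.mk x.1, x.2)) P) (by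
      unfold Satisfies
      rw [MvPolynomial.eval₂_rename]
      have h2 : entries s ∘ (fun x : GK F × Fin n × Fin n =>
          ((QuotientGroup.mk x.1 : GK F ⧸ U), x.2)) = entries R := by
        funext x
        change (s (QuotientGroup.mk x.1) : Matrix (Fin n) (Fin n) K) x.2.1 x.2.2 = _
        rw [hs]
        rfl
      rw [h2]
      exact hsat P hP)
    unfold Satisfies at h1 ⊢
    rw [MvPolynomial.eval₂_rename] at h1
    exact h1
  · intro v hv _ σ hσ P hP
    have h1 := hr (MvPolynomial.rename (fun x => (QuotientGroup.mk σ, x.1, x.2)) P) (by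
      unfold Satisfies
      rw [MvPolynomial.eval₂_rename]
      have h2 : entries s ∘ (fun x : Fin n × Fin n =>
          ((QuotientGroup.mk σ : GK F ⧸ U), x.1, x.2)) =
          fun ij => (R σ : Matrix (Fin n) (Fin n) K) ij.1 ij.2 := by
        funext x
        change (s (QuotientGroup.mk σ) : Matrix (Fin n) (Fin n) K) x.1 x.2 = _
        rw [hs]
      rw [h2]
      exact (hm v hv).2 σ hσ P hP)
    unfold Satisfies at h1
    rw [MvPolynomial.eval₂_rename] at h1
    exact h1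

/-- **Change of the coefficient field** for a continuous representation in characteristic zero. -/
theorem of_adic (Θ : HeckeSystem F E n) (hn : 0 < n) (hms : Θ.FewTraces)
    {k : Type} [Field k] [CharZero k] [TopologicalSpace k] [IsTopologicalRing k] [T2Space k]
    (φ : 𝓞 E →+* k) (ρ : GK F →* GL (Fin n) k)
    (hc : Continuous fun σ => (ρ σ : Matrix (Fin n) (Fin n) k)) (hs : Semis ρ)
    (hfin : {v | ¬ Θ.Matches φ ρ v}.Finite) :
    Finite ρ.range ∧ ∀ (K : Type) [Field K] [CharZero K] [IsAlgClosed K] (φ' : 𝓞 E →+* K),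
      ∃ R : GK F →* GL (Fin n) K, IsOpen (R.ker : Set (GK F)) ∧
        (∀ P, Satisfies φ ρ P → Satisfies φ' R P) ∧ (∀ v, Θ.Matches φ ρ v → Θ.Matches φ' R v) ∧
        ∀ (σ : GK F) (𝒟 : Set (MvPolynomial (Fin n × Fin n) (𝓞 E))),
          InClass 𝒟 φ (ρ σ : Matrix (Fin n) (Fin n) k) →
            InClass 𝒟 φ' (R σ : Matrix (Fin n) (Fin n) K) := by
  obtain ⟨h1, h2⟩ := finite_of_adic Θ hn hms φ ρ hc hs hfin
  refine ⟨h1, fun K _ _ _ φ' => ?_⟩
  obtain ⟨R, hR, hR'⟩ := transferP φ φ' ρ h1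
  refine ⟨R, Subgroup.isOpen_mono hR h2, hR', fun v hv => ⟨fun τ hτ => ?_, fun σ hσ => ?_⟩,
    fun σ 𝒟 h P hP => ?_⟩
  · exact hR (hv.1 τ hτ)
  · rw [charpoly_iff]
    intro m
    apply hR'
    revert m
    rw [← charpoly_iff]
    exact hv.2 σ hσ
  · have h3 := hR' (MvPolynomial.rename (fun x => (σ, x.1, x.2)) P) (by
      unfold Satisfies
      rw [MvPolynomial.eval₂_rename]
      exact h P hP)
    unfold Satisfies at h3
    rw [MvPolynomial.eval₂_rename] at h3
    exact h3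

end Run7.h427.LG
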